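import Pool.Agent.Helper59.EC.Defs

/-!
# The core of (Imm): a valuation ring moved by an automorphism of prime order

`imm_step`: if `s` has order `p` and the valuation ring `O` is not `s`-stable, every `y ≠ 0` is
congruent to an `s`-fixed element modulo `1 + 𝔪_O`. `dense_step`: if moreover `O` has rank one, the
`s`-fixed elements are dense for `O`.
-/

set_option autoImplicit false

namespace Pool.Agent.Helper92.EC

open Pool.Agent.Helper59.EC

variable {E : Type} [Field E]

theorem iter_div (t : E ≃+* E) (m : ℕ) (a b : E) : t^[m] (a / b) = t^[m] a / t^[m] b := by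
  induction m generalizing a b with
  | zero => simp
  | succ m ih => rw [Function.iterate_succ_apply, map_div₀, ih]; rfl

theorem iter_mul (t : E ≃+* E) (m : ℕ) (a b : E) : t^[m] (a * b) = t^[m] a * t^[m] b := by
  induction m generalizing a b with
  | zero => simp
  | succ m ih => rw [Function.iterate_succ_apply, map_mul, ih]; rfl

theorem iter_zero (t : E ≃+* E) (m : ℕ) : t^[m] (0 : E) = 0 := by
  induction m with
  | zero => simp
  | succ m ih => rw [Function.iterate_succ_apply, map_zero, ih]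

theorem iter_one (t : E ≃+* E) (m : ℕ) : t^[m] (1 : E) = 1 := by
  induction m with
  | zero => simp
  | succ m ih => rw [Function.iterate_succ_apply, map_one, ih]

theorem iter_ne_zero (t : E ≃+* E) (m : ℕ) {a : E} (ha : a ≠ 0) : t^[m] a ≠ 0 := by
  intro h
  apply ha
  apply (t.injective.iterate m)
  rw [h, iter_zero]

/-- If `q · t O ⊆ O` then there is a `t`-stable ring `O ⊆ O₀` with `q O₀ ⊆ O`. -/
theorem exists_stable (t : E ≃+* E) (n : ℕ) (hn : 0 < n) (ht : ∀ x, t^[n] x = x)
    (O : ValuationSubring E) (q : E) (hq : ∀ x ∈ O, q * t x ∈ O) :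
    ∃ O₀ : ValuationSubring E, O ≤ O₀ ∧ (∀ x ∈ O₀, t x ∈ O₀) ∧ (∀ x ∈ O₀, q * x ∈ O) ∧
      ∀ x ∈ O, t x ∈ O₀ := by
  let R : Subring E :=
    { carrier := {x | ∃ a ∈ O, ∃ b ∈ O, x = a * t b}
      mul_mem' := by
        rintro _ _ ⟨a, ha, b, hb, rfl⟩ ⟨a', ha', b', hb', rfl⟩
        exact ⟨a * a', O.mul_mem _ _ ha ha', b * b', O.mul_mem _ _ hb hb', by rw [map_mul]; ring⟩
      one_mem' := ⟨1, O.one_mem, 1, O.one_mem, by simp⟩
      add_mem' := by
        rintro _ _ ⟨a, ha, b, hb, rfl⟩ ⟨a', ha', b', hb', rfl⟩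
        by_cases h0 : b = 0
        · exact ⟨a', ha', b', hb', by rw [h0]; simp⟩
        by_cases h0' : b' = 0
        · exact ⟨a, ha, b, hb, by rw [h0']; simp⟩
        have h1 : t b ≠ 0 := by simpa using h0
        have h1' : t b' ≠ 0 := by simpa using h0'
        rcases O.mem_or_inv_mem (t b' / t b) with h | h
        · refine ⟨a + a' * (t b' / t b), O.add_mem _ _ ha (O.mul_mem _ _ ha' h), b, hb, ?_⟩
          field_simp
        · refine ⟨a' + a * (t b' / t b)⁻¹, O.add_mem _ _ ha' (O.mul_mem _ _ ha h), b', hb', ?_⟩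
          field_simp
          ring
      zero_mem' := ⟨0, O.zero_mem, 0, O.zero_mem, by simp⟩
      neg_mem' := by
        rintro _ ⟨a, ha, b, hb, rfl⟩
        exact ⟨-a, O.neg_mem _ ha, b, hb, by ring⟩ }
  have hOR : O.toSubring ≤ R := fun x hx => ⟨x, hx, 1, O.one_mem, by simp⟩
  let O₀ : ValuationSubring E := O.ofLE R hOR
  have hmem : ∀ x, x ∈ O₀ ↔ ∃ a ∈ O, ∃ b ∈ O, x = a * t b := fun x => Iff.rfl
  have hOO : O ≤ O₀ := hOR
  have htO : ∀ x ∈ O, t x ∈ O₀ := fun x hx => (hmem _).2 ⟨1, O.one_mem, x, hx, by simp⟩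
  have hqO : ∀ x ∈ O₀, q * x ∈ O := by
    intro x hx
    obtain ⟨a, ha, b, hb, rfl⟩ := (hmem x).1 hx
    have : q * (a * t b) = a * (q * t b) := by ring
    rw [this]
    exact O.mul_mem _ _ ha (hq b hb)
  refine ⟨O₀, hOO, ?_, hqO, htO⟩
  -- stability
  have hA1 : O.comap (t.symm : E →+* E) ≤ O₀ := by
    intro x hx
    have hx' : t.symm x ∈ O := hx
    have := htO _ hx'
    simpa using this
  have hA2 : O.comap (t.symm : E →+* E) ≤ O₀.comap (t.symm : E →+* E) := by
    intro x hx
    have hx' : t.symm x ∈ O := hx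
    have : t.symm x ∈ O₀ := hOO hx'
    exact this
  have htot := (ValuationSubring.le_total_ideal (O.comap (t.symm : E →+* E))).total
    ⟨O₀, hA1⟩ ⟨O₀.comap (t.symm : E →+* E), hA2⟩
  have htn : ∀ x, (t.symm)^[n] x = x := by
    intro x
    have h1 : (t.symm)^[n] (t^[n] x) = x :=
      Function.LeftInverse.iterate (fun y => t.symm_apply_apply y) n x
    rwa [ht x] at h1
  rcases htot with h | h
  · -- `O₀ ≤ t O₀`: `t.symm` maps `O₀` to itself
    have h1 : ∀ x ∈ O₀, t.symm x ∈ O₀ := fun x hx => h hx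
    have h2 : ∀ (m : ℕ), ∀ x ∈ O₀, (t.symm)^[m] x ∈ O₀ := by
      intro m
      induction m with
      | zero => intro x hx; simpa using hx
      | succ m ih =>
        intro x hx
        rw [Function.iterate_succ_apply]
        exact ih _ (h1 x hx)
    intro x hx
    have h3 := h2 (n - 1) x hx
    have h4 : (t.symm)^[n - 1] x = t x := by
      have h5 : (t.symm)^[n] (t x) = t x := htn _
      obtain ⟨m, rfl⟩ : ∃ m, n = m + 1 := ⟨n - 1, by omega⟩
      rw [Function.iterate_succ_apply] at h5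
      simpa using h5
    rwa [h4] at h3
  · intro x hx
    have h1 : t.symm (t x) ∈ O₀ := by simpa using hx
    exact h h1

/-- The quotients `y / t y` are units of every `t`-stable valuation ring. -/
theorem div_mem_of_stable (t : E ≃+* E) (n : ℕ) (hn : 0 < n) (ht : ∀ x, t^[n] x = x)
    (O₀ : ValuationSubring E) (h : ∀ x ∈ O₀, t x ∈ O₀) {y : E} (hy : y ≠ 0) :
    y / t y ∈ O₀ := by
  by_contra hcon
  have hty : t y ≠ 0 := by simpa using hy
  have hr : (t y / y) ∈ O₀.nonunits := by
    rw [ValuationSubring.mem_nonunits_iff_or]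
    right
    rwa [inv_div]
  have hst : ∀ x ∈ O₀.nonunits, t x ∈ O₀.nonunits := by
    intro x hx
    rw [ValuationSubring.mem_nonunits_iff_or] at hx ⊢
    rcases hx with hx | hx
    · left
      simp [hx]
    · right
      intro h1
      apply hx
      have h2 : ∀ (m : ℕ), ∀ x ∈ O₀, t^[m] x ∈ O₀ := by
        intro m
        induction m with
        | zero => intro x hx; simpa using hx
        | succ m ih =>
          intro x hx
          rw [Function.iterate_succ_apply]
          exact ih _ (h x hx)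
      have h3 := h2 (n - 1) _ h1
      have h4 : t^[n - 1] ((t x)⁻¹) = x⁻¹ := by
        have h5 : t^[n] (x⁻¹) = x⁻¹ := ht _
        obtain ⟨m, rfl⟩ : ∃ m, n = m + 1 := ⟨n - 1, by omega⟩
        rw [Function.iterate_succ_apply, map_inv₀] at h5
        simpa using h5
      rwa [h4] at h3
  have hprod : ∀ m : ℕ, 0 < m → t^[m] y / y ∈ O₀.nonunits := by
    intro m hm
    induction m with
    | zero => omega
    | succ m ih =>
      rcases Nat.eq_zero_or_pos m with h0 | h0
      · subst h0
        simpa using hr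
      · have h1 := ih h0
        have h2 : ∀ k : ℕ, t^[k] (t y / y) ∈ O₀.nonunits := by
          intro k
          induction k with
          | zero => simpa using hr
          | succ k ihk =>
            rw [Function.iterate_succ_apply']
            exact hst _ ihk
        have h3 := h2 m
        have h4 : t^[m] (t y / y) = t^[m + 1] y / t^[m] y := by
          rw [Function.iterate_succ_apply]
          exact iter_div t m (t y) y
        rw [h4] at h3
        have h5 : t^[m] y ≠ 0 := iter_ne_zero t m hy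
        have h6 : t^[m + 1] y / y = (t^[m + 1] y / t^[m] y) * (t^[m] y / y) := by
          field_simp
        rw [h6]
        exact O₀.nonunits.mul_mem h3 h1
  have h1 := hprod n hn
  rw [ht y, div_self hy, ValuationSubring.mem_nonunits_iff] at h1
  simp at h1

/-- Main dichotomy: if `q O ⊄ O` under `t`. -/
theorem exists_not_mem (t : E ≃+* E) (n : ℕ) (hn : 0 < n) (ht : ∀ x, t^[n] x = x)
    (O : ValuationSubring E) (hO : ¬ ∀ x ∈ O, t x ∈ O) {y : E} (hy : y ≠ 0) :
    ∃ x ∈ O, (y / t y) * t x ∉ O := by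
  by_contra hcon
  push Not at hcon
  obtain ⟨O₀, h1, h2, h3, h4⟩ := exists_stable t n hn ht O (y / t y) hcon
  apply hO
  intro x hx
  have h5 : (y / t y)⁻¹ ∈ O₀ := by
    have h6 := div_mem_of_stable t n hn ht O₀ h2 (inv_ne_zero hy)
    rw [map_inv₀] at h6
    rw [inv_div]
    have h7 : y⁻¹ / (t y)⁻¹ = t y / y := by
      field_simp
    rwa [h7] at h6
  have h6 := h3 _ (O₀.mul_mem _ _ h5 (h4 x hx))
  have hty : t y ≠ 0 := by simpa using hy
  have h7 : y / t y * ((y / t y)⁻¹ * t x) = t x := by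
    field_simp
  rwa [h7] at h6

theorem exists_not_mem_rankOne (t : E ≃+* E) (n : ℕ) (hn : 0 < n) (ht : ∀ x, t^[n] x = x)
    (O : ValuationSubring E) (hO : ¬ ∀ x ∈ O, t x ∈ O) (h1 : RankOne O) {q : E} (hq : q ≠ 0) :
    ∃ x ∈ O, q * t x ∉ O := by
  by_contra hcon
  push Not at hcon
  obtain ⟨O₀, hle, h2, h3, h4⟩ := exists_stable t n hn ht O q hcon
  by_cases h : O₀ ≤ O
  · exact hO fun x hx => h (h4 x hx)
  · obtain ⟨x, hx, hxO⟩ := SetLike.not_le_iff_exists.1 h
    apply h1.1
    rw [eq_top_iff]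
    intro y _
    have hx0 : x ≠ 0 := by
      rintro rfl
      exact hxO O.zero_mem
    have hxi : x⁻¹ ∈ O.nonunits := by
      rw [ValuationSubring.mem_nonunits_iff_or]
      right
      rwa [inv_inv]
    by_cases hy : y = 0
    · rw [hy]
      exact O.zero_mem
    obtain ⟨m, hm⟩ := h1.2 _ hxi (q / y) (div_ne_zero hq hy)
    have h5 : x ^ m * (x⁻¹ ^ m / (q / y)) ∈ O₀ := O₀.mul_mem _ _ (pow_mem hx m) (hle hm)
    have h6 : x ^ m * (x⁻¹ ^ m / (q / y)) = y / q := by
      rw [inv_pow]
      field_simp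
    rw [h6] at h5
    have h7 := h3 _ h5
    rwa [mul_div_cancel₀ _ hq] at h7

theorem iter_sum (t : E ≃+* E) (m : ℕ) {ι : Type} (A : Finset ι) (f : ι → E) :
    t^[m] (∑ i ∈ A, f i) = ∑ i ∈ A, t^[m] (f i) := by
  induction m generalizing f with
  | zero => simp
  | succ m ih => rw [Function.iterate_succ_apply, map_sum, ih]; rfl

theorem iter_pow (t : E ≃+* E) (m k : ℕ) (a : E) : t^[m] (a ^ k) = (t^[m] a) ^ k := by
  induction k with
  | zero => simp only [pow_zero, iter_one]
  | succ k ih => rw [pow_succ, iter_mul, ih, pow_succ]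

theorem iter_fixed (t : E ≃+* E) (m : ℕ) {a : E} (ha : t a = a) : t^[m] a = a := by
  induction m with
  | zero => simp
  | succ m ih => rw [Function.iterate_succ_apply, ha, ih]

open Polynomial in
/-- A monic polynomial with fixed coefficients killing `x`. -/
theorem exists_fixed_poly (s : E ≃+* E) (n : ℕ) (hn : 0 < n) (hs : ∀ x, s^[n] x = x) (x : E) :
    ∃ c : ℕ → E, (∀ i, s (c i) = c i) ∧ c n = 1 ∧
      ∀ j : ℕ, ∑ i ∈ Finset.range (n + 1), c i * (s^[j] x) ^ i = 0 := by
  classical
  set P : E[X] := ∏ j ∈ Finset.range n, (X - C (s^[j] x)) with hP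
  have hmon : P.Monic := monic_prod_of_monic _ _ fun j _ => monic_X_sub_C _
  have hdeg : P.natDegree = n := by
    rw [hP, natDegree_prod_of_monic _ _ fun j _ => monic_X_sub_C _]
    simp
  have hmap : P.map (s : E →+* E) = P := by
    rw [hP, Polynomial.map_prod]
    simp only [Polynomial.map_sub, map_X, map_C, RingHom.coe_coe]
    have h1 : ∀ j, X - C (s (s^[j] x)) = X - C (s^[j + 1] x) := fun j => by
      rw [Function.iterate_succ_apply']
    rw [Finset.prod_congr rfl fun j _ => h1 j]
    have h2 := Finset.prod_range_succ (fun j => X - C (s^[j] x)) n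
    have h3 := Finset.prod_range_succ' (fun j => X - C (s^[j] x)) n
    rw [h2] at h3
    simp only [hs x, Function.iterate_zero, id_eq] at h3
    have h4 : (X - C x : E[X]) ≠ 0 := X_sub_C_ne_zero x
    exact (mul_right_cancel₀ h4 h3).symm
  have hfix : ∀ i, s (P.coeff i) = P.coeff i := by
    intro i
    have := congrArg (fun Q => Polynomial.coeff Q i) hmap
    simpa [coeff_map] using this
  refine ⟨P.coeff, hfix, ?_, ?_⟩
  · have := hmon.coeff_natDegree
    rwa [hdeg] at this
  · have hx : ∑ i ∈ Finset.range (n + 1), P.coeff i * x ^ i = 0 := by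
      rw [← eval_eq_sum_range' (by rw [hdeg]; omega) x, hP, eval_prod]
      apply Finset.prod_eq_zero (Finset.mem_range.2 hn)
      simp
    intro j
    have h1 := congrArg (fun y => s^[j] y) hx
    simp only [iter_sum, iter_zero, iter_mul, iter_pow, iter_fixed s j (hfix _)] at h1
    exact h1

/-- Common denominators. -/
theorem exists_denom (s : E ≃+* E) (n : ℕ) (hn : 0 < n) (hs : ∀ x, s^[n] x = x)
    (O : ValuationSubring E) {x : E} (hx : x ∈ O) :
    ∃ b : E, O.valuation b = 1 ∧ (∀ j, s^[j] b ∈ O) ∧ ∀ j, s^[j] (b * x) ∈ O := by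
  classical
  obtain ⟨c, hfix, hcn, hroot⟩ := exists_fixed_poly s n hn hs x
  obtain ⟨i0, hi0, hmax⟩ := Finset.exists_max_image (Finset.range (n + 1))
    (fun i => O.valuation (c i)) ⟨n, by simp⟩
  have hc0 : c i0 ≠ 0 := by
    intro h0
    have := hmax n (by simp)
    rw [hcn, h0] at this
    simp at this
  set d : ℕ → E := fun i => c i / c i0 with hd
  have hdfix : ∀ i, s (d i) = d i := fun i => by simp only [hd, map_div₀, hfix]
  have hv0 : O.valuation (c i0) ≠ 0 := (Valuation.ne_zero_iff _).2 hc0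
  have hd1 : ∀ i ∈ Finset.range (n + 1), O.valuation (d i) ≤ 1 := by
    intro i hi
    simp only [hd, map_div₀]
    exact div_le_one_of_le₀ (hmax i hi) zero_le
  have hdO : ∀ i ∈ Finset.range (n + 1), d i ∈ O := fun i hi =>
    (O.valuation_le_one_iff _).1 (hd1 i hi)
  have hdi0 : O.valuation (d i0) = 1 := by
    simp only [hd, map_div₀]
    exact div_self hv0
  obtain ⟨k, hk, hkmax⟩ := Finset.exists_max_image
    ((Finset.range (n + 1)).filter fun i => O.valuation (d i) = 1) id
    ⟨i0, by simp only [Finset.mem_filter]; exact ⟨hi0, hdi0⟩⟩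
  simp only [Finset.mem_filter, Finset.mem_range, id_eq] at hk hkmax
  obtain ⟨hkn, hk1⟩ := hk
  have hlt : ∀ i, k < i → i < n + 1 → O.valuation (d i) < 1 := by
    intro i hki hin
    refine lt_of_le_of_ne (hd1 i (Finset.mem_range.2 hin)) fun h => ?_
    have := hkmax i ⟨hin, h⟩
    omega
  have hrel : ∀ j, (∑ i ∈ Finset.range k, d i * (s^[j] x) ^ i) +
      (s^[j] x) ^ k * ∑ i ∈ Finset.Ico k (n + 1), d i * (s^[j] x) ^ (i - k) = 0 := by
    intro j
    have h1 := hroot j
    have h2 : ∑ i ∈ Finset.range (n + 1), d i * (s^[j] x) ^ i = 0 := by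
      have : ∑ i ∈ Finset.range (n + 1), d i * (s^[j] x) ^ i
          = (∑ i ∈ Finset.range (n + 1), c i * (s^[j] x) ^ i) / c i0 := by
        rw [Finset.sum_div]
        exact Finset.sum_congr rfl fun i _ => by simp only [hd]; ring
      rw [this, h1, zero_div]
    rw [← Finset.sum_range_add_sum_Ico _ hkn.le] at h2
    rw [← h2, Finset.mul_sum]
    congr 1
    refine Finset.sum_congr rfl fun i hi => ?_
    rw [Finset.mem_Ico] at hi
    have : i = k + (i - k) := by omega
    conv_rhs => rw [this, pow_add]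
    rw [← this]
    ring
  set b : E := ∑ i ∈ Finset.Ico k (n + 1), d i * x ^ (i - k) with hb
  have hsb : ∀ j, s^[j] b = ∑ i ∈ Finset.Ico k (n + 1), d i * (s^[j] x) ^ (i - k) := by
    intro j
    rw [hb, iter_sum]
    exact Finset.sum_congr rfl fun i _ => by rw [iter_mul, iter_pow, iter_fixed s j (hdfix i)]
  have hbu : O.valuation b = 1 := by
    rw [hb, Finset.sum_eq_sum_Ico_succ_bot hkn]
    have h1 : O.valuation (d k * x ^ (k - k)) = 1 := by simpa using hk1
    have h2 : O.valuation (∑ i ∈ Finset.Ico (k + 1) (n + 1), d i * x ^ (i - k)) < 1 := by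
      apply Valuation.map_sum_lt _ one_ne_zero
      intro i hi
      rw [Finset.mem_Ico] at hi
      rw [map_mul, map_pow]
      have h3 := hlt i (by omega) hi.2
      have h4 : O.valuation x ^ (i - k) ≤ 1 :=
        pow_le_one₀ zero_le ((O.valuation_le_one_iff _).2 hx)
      exact mul_lt_one_of_lt_of_le h3 h4
    rw [Valuation.map_add_eq_of_lt_left _ (by rw [h1]; exact h2), h1]
  have hmain : ∀ j, s^[j] b ∈ O ∧ s^[j] b * s^[j] x ∈ O := by
    intro j
    rw [hsb j]
    set y := s^[j] x with hy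
    by_cases hyO : y ∈ O
    · have h1 : ∑ i ∈ Finset.Ico k (n + 1), d i * y ^ (i - k) ∈ O := by
        apply sum_mem
        intro i hi
        rw [Finset.mem_Ico] at hi
        exact O.mul_mem _ _ (hdO i (Finset.mem_range.2 hi.2)) (pow_mem hyO _)
      exact ⟨h1, O.mul_mem _ _ h1 hyO⟩
    · have hy0 : y ≠ 0 := by
        intro h0
        exact hyO (by rw [h0]; exact O.zero_mem)
      have hyi : y⁻¹ ∈ O := (O.mem_or_inv_mem y).resolve_left hyO
      have h1 : ∑ i ∈ Finset.Ico k (n + 1), d i * y ^ (i - k)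
          = -∑ i ∈ Finset.range k, d i * (y⁻¹) ^ (k - i) := by
        have h2 := hrel j
        rw [← hy] at h2
        have h3 : y ^ k ≠ 0 := pow_ne_zero _ hy0
        have h4 : y ^ k * ∑ i ∈ Finset.range k, d i * (y⁻¹) ^ (k - i)
            = ∑ i ∈ Finset.range k, d i * y ^ i := by
          rw [Finset.mul_sum]
          refine Finset.sum_congr rfl fun i hi => ?_
          rw [Finset.mem_range] at hi
          have h5 : y ^ k = y ^ i * y ^ (k - i) := by
            rw [← pow_add]
            congr 1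
            omega
          rw [h5, inv_pow]
          field_simp
        apply mul_left_cancel₀ h3
        rw [mul_neg, h4]
        linear_combination h2
      constructor
      · rw [h1]
        apply O.neg_mem
        apply sum_mem
        intro i hi
        rw [Finset.mem_range] at hi
        exact O.mul_mem _ _ (hdO i (Finset.mem_range.2 (by omega))) (pow_mem hyi _)
      · rw [h1]
        have h6 : -(∑ i ∈ Finset.range k, d i * y⁻¹ ^ (k - i)) * y
            = -∑ i ∈ Finset.range k, d i * y⁻¹ ^ (k - i - 1) := by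
          rw [neg_mul, Finset.sum_mul]
          congr 1
          refine Finset.sum_congr rfl fun i hi => ?_
          rw [Finset.mem_range] at hi
          have h5 : y⁻¹ ^ (k - i) = y⁻¹ ^ (k - i - 1) * y⁻¹ := by
            rw [← pow_succ]
            congr 1
            omega
          rw [h5]
          field_simp
        rw [h6]
        apply O.neg_mem
        apply sum_mem
        intro i hi
        rw [Finset.mem_range] at hi
        exact O.mul_mem _ _ (hdO i (Finset.mem_range.2 (by omega))) (pow_mem hyi _)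
  exact ⟨b, hbu, fun j => (hmain j).1, fun j => by rw [iter_mul]; exact (hmain j).2⟩

theorem lt_one_of_le_of_lt (O : ValuationSubring E) {a b : O.ValueGroup} (ha : a ≤ 1)
    (hb : b < 1) : a * b < 1 := by
  rw [mul_comm]
  exact mul_lt_one_of_lt_of_le hb ha

/-- The iterate as a ring automorphism. -/
def iterEquiv (s : E ≃+* E) : ℕ → (E ≃+* E)
  | 0 => RingEquiv.refl E
  | (j + 1) => (iterEquiv s j).trans s

theorem iterEquiv_apply (s : E ≃+* E) (j : ℕ) (x : E) : iterEquiv s j x = s^[j] x := by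
  induction j with
  | zero => rfl
  | succ j ih =>
    rw [Function.iterate_succ_apply', ← ih]
    rfl

theorem iterEquiv_iterate (s : E ≃+* E) (j m : ℕ) (x : E) :
    (iterEquiv s j)^[m] x = s^[j * m] x := by
  induction m with
  | zero => simp
  | succ m ih =>
    rw [Function.iterate_succ_apply', ih, iterEquiv_apply, Nat.mul_succ, Nat.add_comm,
      Function.iterate_add_apply]

theorem iter_mul_period (s : E ≃+* E) (p : ℕ) (hs : ∀ x, s^[p] x = x) (m : ℕ) (x : E) :
    s^[p * m] x = x := by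
  induction m with
  | zero => simp
  | succ m ih => rw [Nat.mul_succ, Function.iterate_add_apply, hs, ih]

theorem iter_stable (s : E ≃+* E) (O : ValuationSubring E) (h : ∀ x ∈ O, s x ∈ O) (m : ℕ) :
    ∀ x ∈ O, s^[m] x ∈ O := by
  induction m with
  | zero => intro x hx; simpa using hx
  | succ m ih =>
    intro x hx
    rw [Function.iterate_succ_apply]
    exact ih _ (h x hx)

/-- If `O` is not `s`-stable, it is not `s^j`-stable for `0 < j < p`. -/
theorem not_stable_iter {p : ℕ} (hp : p.Prime) (s : E ≃+* E) (hs : ∀ x, s^[p] x = x)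
    (O : ValuationSubring E) (hO : ¬ ∀ x, x ∈ O ↔ s x ∈ O) {j : ℕ} (hj : j ∈ Finset.Ico 1 p) :
    ¬ ∀ x ∈ O, iterEquiv s j x ∈ O := by
  intro hst
  apply hO
  rw [Finset.mem_Ico] at hj
  have hcop : Nat.Coprime j p :=
    (Nat.Coprime.symm ((Nat.Prime.coprime_iff_not_dvd hp).2 fun h =>
      absurd (Nat.le_of_dvd (by omega) h) (by omega)))
  obtain ⟨m, hm⟩ : ∃ m, j * m % p = 1 := by
    obtain ⟨m, hm⟩ := Nat.exists_mul_mod_eq_one_of_coprime hcop hp.one_lt
    exact ⟨m, hm.2⟩
  have h1 : ∀ x ∈ O, s x ∈ O := by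
    intro x hx
    have h2 := iter_stable (iterEquiv s j) O hst m x hx
    rw [iterEquiv_iterate] at h2
    have h3 : j * m = p * (j * m / p) + 1 := by
      have := Nat.div_add_mod (j * m) p
      omega
    rw [h3, Function.iterate_add_apply, iter_mul_period s p hs] at h2
    simpa using h2
  intro x
  refine ⟨h1 x, fun hx => ?_⟩
  have h2 := iter_stable s O h1 (p - 1) _ hx
  have h3 : s^[p - 1] (s x) = x := by
    have h4 := hs x
    obtain ⟨m, rfl⟩ : ∃ m, p = m + 1 := ⟨p - 1, by have := hp.pos; omega⟩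
    rw [Function.iterate_succ_apply] at h4
    simpa using h4
  rwa [h3] at h2

/-- An integral element which is a unit at `O` and small at another conjugate. -/
theorem exists_small_one (s : E ≃+* E) (n : ℕ) (hn : 0 < n) (hs : ∀ x, s^[n] x = x)
    (O : ValuationSubring E) (j : ℕ) {q : E} (h : ∃ x ∈ O, q * iterEquiv s j x ∉ O) :
    ∃ b : E, O.valuation b = 1 ∧ (∀ i, s^[i] b ∈ O) ∧ s^[j] b / q ∈ O.nonunits := by
  obtain ⟨x, hx, hqx⟩ := h
  rw [iterEquiv_apply] at hqx
  obtain ⟨b, hb1, hb2, hb3⟩ := exists_denom s n hn hs O hx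
  refine ⟨b, hb1, hb2, ?_⟩
  have h0 : q * s^[j] x ≠ 0 := by
    intro h0
    exact hqx (by rw [h0]; exact O.zero_mem)
  have hq : q ≠ 0 := left_ne_zero_of_mul h0
  have hx0 : s^[j] x ≠ 0 := right_ne_zero_of_mul h0
  have h1 : (q * s^[j] x)⁻¹ ∈ O.nonunits := by
    rw [ValuationSubring.inv_mem_nonunits_iff]
    exact Or.inr hqx
  have h2 : s^[j] b / q = s^[j] (b * x) * (q * s^[j] x)⁻¹ := by
    rw [iter_mul]
    field_simp
  rw [h2, ValuationSubring.mem_nonunits_iff, map_mul]
  rw [ValuationSubring.mem_nonunits_iff] at h1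
  exact lt_one_of_le_of_lt O ((O.valuation_le_one_iff _).2 (hb3 j)) h1

/-- Simultaneous version for all `0 < j < p`. -/
theorem exists_small (s : E ≃+* E) (n : ℕ) (hn : 0 < n) (hs : ∀ x, s^[n] x = x)
    (O : ValuationSubring E) (q : ℕ → E) (A : Finset ℕ)
    (h : ∀ j ∈ A, ∃ x ∈ O, q j * iterEquiv s j x ∉ O) :
    ∃ b : E, O.valuation b = 1 ∧ (∀ i, s^[i] b ∈ O) ∧ ∀ j ∈ A, s^[j] b / q j ∈ O.nonunits := by
  classical
  induction A using Finset.induction_on with
  | empty =>
    refine ⟨1, by simp, fun i => ?_, by simp⟩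
    rw [iter_one]
    exact O.one_mem
  | insert a A ha ih =>
    obtain ⟨b, hb1, hb2, hb3⟩ := ih fun j hj => h j (Finset.mem_insert_of_mem hj)
    obtain ⟨b', hb1', hb2', hb3'⟩ := exists_small_one s n hn hs O a
      (h a (Finset.mem_insert_self _ _))
    refine ⟨b * b', by rw [map_mul, hb1, hb1', one_mul], fun i => ?_, ?_⟩
    · rw [iter_mul]
      exact O.mul_mem _ _ (hb2 i) (hb2' i)
    · intro j hj
      rw [iter_mul]
      rw [Finset.mem_insert] at hj
      rcases hj with rfl | hj
      · have h1 : s^[j] b * s^[j] b' / q j = s^[j] b * (s^[j] b' / q j) := by ring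
        rw [h1, ValuationSubring.mem_nonunits_iff, map_mul]
        rw [ValuationSubring.mem_nonunits_iff] at hb3'
        exact lt_one_of_le_of_lt O ((O.valuation_le_one_iff _).2 (hb2 j)) hb3'
      · have h1 : s^[j] b * s^[j] b' / q j = (s^[j] b / q j) * s^[j] b' := by ring
        rw [h1, ValuationSubring.mem_nonunits_iff, map_mul]
        have h2 := hb3 j hj
        rw [ValuationSubring.mem_nonunits_iff] at h2
        exact mul_lt_one_of_lt_of_le h2 ((O.valuation_le_one_iff _).2 (hb2' j))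

/-- The trace. -/
def tr (s : E ≃+* E) (n : ℕ) (x : E) : E := ∑ i ∈ Finset.range n, s^[i] x

theorem tr_fixed (s : E ≃+* E) (n : ℕ) (hs : ∀ x, s^[n] x = x) (x : E) :
    s (tr s n x) = tr s n x := by
  rw [tr, map_sum]
  have h1 : ∀ i, s (s^[i] x) = s^[i + 1] x := fun i => by rw [Function.iterate_succ_apply']
  rw [Finset.sum_congr rfl fun i _ => h1 i]
  have h2 := Finset.sum_range_succ (fun j => s^[j] x) n
  have h3 := Finset.sum_range_succ' (fun j => s^[j] x) n
  rw [h2] at h3
  simp only [hs x, Function.iterate_zero, id_eq] at h3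
  exact (add_right_cancel h3).symm

theorem tr_eq (s : E ≃+* E) {n : ℕ} (hn : 0 < n) (x : E) :
    tr s n x = x + ∑ i ∈ Finset.Ico 1 n, s^[i] x := by
  rw [tr, Finset.range_eq_Ico, Finset.sum_eq_sum_Ico_succ_bot hn]
  simp

theorem sum_nonunits (O : ValuationSubring E) {A : Finset ℕ} {f : ℕ → E}
    (h : ∀ i ∈ A, f i ∈ O.nonunits) : ∑ i ∈ A, f i ∈ O.nonunits :=
  sum_mem h

/-- (Imm), one step. -/
theorem imm_step {p : ℕ} (hp : p.Prime) (s : E ≃+* E) (hs : ∀ x, s^[p] x = x)
    (O : ValuationSubring E) (hO : ¬ ∀ x, x ∈ O ↔ s x ∈ O) (y : E) (hy : y ≠ 0) :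
    ∃ y₀ : E, y₀ ≠ 0 ∧ s y₀ = y₀ ∧ y / y₀ - 1 ∈ O.nonunits := by
  have hpp := hp.pos
  have hper : ∀ j x, (iterEquiv s j)^[p] x = x := by
    intro j x
    rw [iterEquiv_iterate, mul_comm, iter_mul_period s p hs]
  obtain ⟨a, ha1, ha2, ha3⟩ := exists_small s p hpp hs O (fun j => y / s^[j] y)
    (Finset.Ico 1 p) (fun j hj => by
      have := exists_not_mem (iterEquiv s j) p hpp (hper j) O
        (not_stable_iter hp s hs O hO hj) hy
      rwa [iterEquiv_apply] at this)
  obtain ⟨b, hb1, hb2, hb3⟩ := exists_small s p hpp hs O (fun _ => 1)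
    (Finset.Ico 1 p) (fun j hj => by
      have := exists_not_mem (iterEquiv s j) p hpp (hper j) O
        (not_stable_iter hp s hs O hO hj) (one_ne_zero : (1 : E) ≠ 0)
      simpa using this)
  set c := a * b with hc
  have hc1 : O.valuation c = 1 := by rw [hc, map_mul, ha1, hb1, one_mul]
  have hcs : ∀ j ∈ Finset.Ico 1 p, s^[j] c ∈ O.nonunits := by
    intro j hj
    have h1 := hb3 j hj
    rw [div_one, ValuationSubring.mem_nonunits_iff] at h1
    rw [hc, iter_mul, ValuationSubring.mem_nonunits_iff, map_mul]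
    exact lt_one_of_le_of_lt O ((O.valuation_le_one_iff _).2 (ha2 j)) h1
  have hcy : ∀ j ∈ Finset.Ico 1 p, s^[j] (y * c) / y ∈ O.nonunits := by
    intro j hj
    have h1 := ha3 j hj
    have h2 : s^[j] (y * c) / y = (s^[j] a / (y / s^[j] y)) * s^[j] b := by
      rw [hc, iter_mul, iter_mul]
      field_simp
    rw [h2, ValuationSubring.mem_nonunits_iff, map_mul]
    rw [ValuationSubring.mem_nonunits_iff] at h1
    exact mul_lt_one_of_lt_of_le h1 ((O.valuation_le_one_iff _).2 (hb2 j))
  set m1 := ∑ j ∈ Finset.Ico 1 p, s^[j] c with hm1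
  set m2 := ∑ j ∈ Finset.Ico 1 p, s^[j] (y * c) / y with hm2
  have hm1n : m1 ∈ O.nonunits := sum_nonunits O hcs
  have hm2n : m2 ∈ O.nonunits := sum_nonunits O hcy
  have ht1 : tr s p c = c + m1 := tr_eq s hpp c
  have ht2 : tr s p (y * c) = y * (c + m2) := by
    rw [tr_eq s hpp, mul_add, hm2, Finset.mul_sum]
    congr 1
    refine Finset.sum_congr rfl fun j _ => ?_
    field_simp
  rw [ValuationSubring.mem_nonunits_iff] at hm1n hm2n
  have hv1 : O.valuation (c + m1) = 1 := by
    rw [Valuation.map_add_eq_of_lt_left _ (by rw [hc1]; exact hm1n), hc1]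
  have hv2 : O.valuation (c + m2) = 1 := by
    rw [Valuation.map_add_eq_of_lt_left _ (by rw [hc1]; exact hm2n), hc1]
  have hn1 : c + m1 ≠ 0 := by
    intro h0
    rw [h0] at hv1
    simp at hv1
  have hn2 : c + m2 ≠ 0 := by
    intro h0
    rw [h0] at hv2
    simp at hv2
  refine ⟨tr s p (y * c) / tr s p c, ?_, ?_, ?_⟩
  · rw [ht1, ht2]
    exact div_ne_zero (mul_ne_zero hy hn2) hn1
  · rw [map_div₀, tr_fixed s p hs, tr_fixed s p hs]
  · rw [ht1, ht2]
    have h1 : y / (y * (c + m2) / (c + m1)) - 1 = (m1 - m2) / (c + m2) := by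
      field_simp
      ring
    rw [h1, ValuationSubring.mem_nonunits_iff, map_div₀, hv2, div_one]
    exact lt_of_le_of_lt (Valuation.map_sub _ _ _) (max_lt hm1n hm2n)

/-- Density of the fixed elements, rank one, one step. -/
theorem dense_step {p : ℕ} (hp : p.Prime) (s : E ≃+* E) (hs : ∀ x, s^[p] x = x)
    (O : ValuationSubring E) (hO : ¬ ∀ x, x ∈ O ↔ s x ∈ O) (hr : RankOne O) (y c : E)
    (hc : c ≠ 0) : ∃ y₀ : E, s y₀ = y₀ ∧ (y - y₀) / c ∈ O := by
  have hpp := hp.pos
  by_cases hy : y = 0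
  · exact ⟨0, map_zero s, by rw [hy]; simp⟩
  have hper : ∀ j x, (iterEquiv s j)^[p] x = x := by
    intro j x
    rw [iterEquiv_iterate, mul_comm, iter_mul_period s p hs]
  have hex : ∀ q : ℕ → E, (∀ j, q j ≠ 0) → ∀ j ∈ Finset.Ico 1 p,
      ∃ x ∈ O, q j * iterEquiv s j x ∉ O := fun q hq j hj =>
    exists_not_mem_rankOne (iterEquiv s j) p hpp (hper j) O
        (not_stable_iter hp s hs O hO hj) hr (hq j)
  have hyj : ∀ j, s^[j] y ≠ 0 := fun j => iter_ne_zero s j hy
  obtain ⟨a1, ha1, ha2, ha3⟩ := exists_small s p hpp hs O (fun j => c / s^[j] y)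
    (Finset.Ico 1 p) (hex _ fun j => div_ne_zero hc (hyj j))
  obtain ⟨b1, hb1, hb2, hb3⟩ := exists_small s p hpp hs O (fun _ => c / y)
    (Finset.Ico 1 p) (hex _ fun j => div_ne_zero hc hy)
  obtain ⟨d1, hd1, hd2, hd3⟩ := exists_small s p hpp hs O (fun _ => 1)
    (Finset.Ico 1 p) (hex _ fun j => one_ne_zero)
  set a := a1 * b1 * d1 with ha
  have hav : O.valuation a = 1 := by rw [ha, map_mul, map_mul, ha1, hb1, hd1]; simp
  have h1 : ∀ j ∈ Finset.Ico 1 p, s^[j] a ∈ O.nonunits := by
    intro j hj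
    have h := hd3 j hj
    rw [div_one, ValuationSubring.mem_nonunits_iff] at h
    rw [ha, iter_mul, iter_mul, ValuationSubring.mem_nonunits_iff, map_mul]
    exact lt_one_of_le_of_lt O
      ((O.valuation_le_one_iff _).2 (O.mul_mem _ _ (ha2 j) (hb2 j))) h
  have h2 : ∀ j ∈ Finset.Ico 1 p, s^[j] (y * a) / c ∈ O.nonunits := by
    intro j hj
    have h := ha3 j hj
    have e : s^[j] (y * a) / c = (s^[j] a1 / (c / s^[j] y)) * (s^[j] b1 * s^[j] d1) := by
      rw [ha, iter_mul, iter_mul, iter_mul]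
      have := hyj j
      field_simp
    rw [ValuationSubring.mem_nonunits_iff] at h
    rw [e, ValuationSubring.mem_nonunits_iff, map_mul]
    exact mul_lt_one_of_lt_of_le h
      ((O.valuation_le_one_iff _).2 (O.mul_mem _ _ (hb2 j) (hd2 j)))
  have h3 : ∀ j ∈ Finset.Ico 1 p, y * s^[j] a / c ∈ O.nonunits := by
    intro j hj
    have h := hb3 j hj
    have e : y * s^[j] a / c = (s^[j] b1 / (c / y)) * (s^[j] a1 * s^[j] d1) := by
      rw [ha, iter_mul, iter_mul]
      field_simp
    rw [ValuationSubring.mem_nonunits_iff] at h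
    rw [e, ValuationSubring.mem_nonunits_iff, map_mul]
    exact mul_lt_one_of_lt_of_le h
      ((O.valuation_le_one_iff _).2 (O.mul_mem _ _ (ha2 j) (hd2 j)))
  set m1 := ∑ j ∈ Finset.Ico 1 p, s^[j] a with hm1
  have hm1n : m1 ∈ O.nonunits := sum_nonunits O h1
  rw [ValuationSubring.mem_nonunits_iff] at hm1n
  have ht1 : tr s p a = a + m1 := tr_eq s hpp a
  have hv1 : O.valuation (a + m1) = 1 := by
    rw [Valuation.map_add_eq_of_lt_left _ (by rw [hav]; exact hm1n), hav]
  have hn1 : a + m1 ≠ 0 := by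
    intro h0
    rw [h0] at hv1
    simp at hv1
  refine ⟨tr s p (y * a) / tr s p a, ?_, ?_⟩
  · rw [map_div₀, tr_fixed s p hs, tr_fixed s p hs]
  · have e : (y - tr s p (y * a) / tr s p a) / c
        = (∑ j ∈ Finset.Ico 1 p, (y * s^[j] a / c - s^[j] (y * a) / c)) / (a + m1) := by
      rw [tr_eq s hpp (y * a), ht1, Finset.sum_sub_distrib, ← Finset.sum_div, ← Finset.sum_div,
        ← Finset.mul_sum, ← hm1]
      field_simp
      ring
    rw [e, ← ValuationSubring.valuation_le_one_iff, map_div₀, hv1, div_one]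
    have h4 : ∑ j ∈ Finset.Ico 1 p, (y * s^[j] a / c - s^[j] (y * a) / c) ∈ O.nonunits :=
      sum_nonunits O fun j hj => sub_mem (h3 j hj) (h2 j hj)
    rw [ValuationSubring.mem_nonunits_iff] at h4
    exact h4.le

end Pool.Agent.Helper92.EC
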